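import Pool.Agent.H52.KL.KL

/-!
# Ergodic labels of stable families are mixing under kernels of small price

A closed label on the event `A` is a function of `lm` and a function of `x` which agree on `A`. If
`A` has a closed label with masses at most `exp (-h)` and no event of relative probability at least
`exp (-κ)` has one with masses at most `exp (-(h + s₀))`, then every kernel of `lm` of price `ε`
tells more than `s₀` about `x` given the label only with probability `≤ 4 (ε + 1) / κ + 4 exp (-κ / 2)`.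
-/

set_option autoImplicit false

namespace Pool.KL

open Finset Real
open Pool.Agent.H49.Ent Pool.Agent.H32.Dense Pool.STK Pool.KA Pool.K2S

variable {Ω Ω' L X Z C S T : Type} [Fintype Ω] [Fintype Ω']

/-- There is a closed label on `A` whose values have mass at most `exp (-h)`. -/
def LabP (p : Ω → ℝ) (lm : Ω → L) (x : Ω → X) (h : ℝ) (A : Ω → Prop) : Prop :=
  ∃ (f : L → ℕ) (g : X → ℕ), (∀ ω, A ω → f (lm ω) = g (x ω)) ∧
    ∀ n, Pe p (fun ω => A ω ∧ g (x ω) = n) ≤ Real.exp (-h)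

theorem LabP.hered {p : Ω → ℝ} (hp : IsLaw p) (lm : Ω → L) (x : Ω → X) (h : ℝ) :
    Hered (LabP p lm x h) := by
  rintro A B hB ⟨f, g, h1, h2⟩
  exact ⟨f, g, fun ω hω => h1 ω (hB ω hω), fun n =>
    (Pe_mono hp fun ω hω => ⟨hB ω hω.1, hω.2⟩).trans (h2 n)⟩

theorem LabP.mono {p : Ω → ℝ} {lm : Ω → L} {x : Ω → X} {h h' : ℝ} (hh : h' ≤ h) {A : Ω → Prop}
    (H : LabP p lm x h A) : LabP p lm x h' A := by
  obtain ⟨f, g, h1, h2⟩ := H
  exact ⟨f, g, h1, fun n => (h2 n).trans (Real.exp_le_exp.2 (by linarith))⟩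

open Classical in
theorem Pe_cond {p : Ω → ℝ} (_hp : IsLaw p) (A B : Ω → Prop) (hA : 0 < Pe p A) :
    Pe (cond p A True) B * Pe p A = Pe p (fun ω => A ω ∧ B ω) := by
  rw [Pe_eq, Pe_eq p (fun ω => A ω ∧ B ω), Finset.sum_mul]
  refine Finset.sum_congr rfl fun ω _ => ?_
  unfold Pool.Agent.H49.Ent.cond
  have h1 : law p A True ≠ 0 := hA.ne'
  by_cases hAω : A ω <;> by_cases hB : B ω
  · simp only [hAω, hB, if_true, and_self]
    exact div_mul_cancel₀ _ h1
  · simp [hB]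
  · simp [hAω, hB]
  · simp [hB]

open Classical in
/-- Transfer of probabilities between two laws with the same law of the pair. -/
theorem transfer {p : Ω → ℝ} {q : Ω' → ℝ} {lm : Ω → L} {x : Ω → X} {lm' : Ω' → L} {x' : Ω' → X}
    (h : ∀ l y, law q (fun w => (lm' w, x' w)) (l, y) = law p (fun ω => (lm ω, x ω)) (l, y))
    (φ : L → X → Prop) :
    Pe q (fun w => φ (lm' w) (x' w)) = Pe p (fun ω => φ (lm ω) (x ω)) := by
  set F : Finset (L × X) := (univ.image fun w => (lm' w, x' w)) ∪ univ.image fun ω => (lm ω, x ω)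
  have h1 := sum_law_mul q (fun w => (lm' w, x' w)) F
    (fun w _ => Finset.mem_union_left _ (Finset.mem_image_of_mem _ (Finset.mem_univ w)))
    (fun t => if φ t.1 t.2 then (1 : ℝ) else 0)
  have h2 := sum_law_mul p (fun ω => (lm ω, x ω)) F
    (fun w _ => Finset.mem_union_right _ (Finset.mem_image_of_mem _ (Finset.mem_univ w)))
    (fun t => if φ t.1 t.2 then (1 : ℝ) else 0)
  have h3 : ∑ s ∈ F, law q (fun w => (lm' w, x' w)) s * (if φ s.1 s.2 then (1 : ℝ) else 0) =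
      ∑ s ∈ F, law p (fun ω => (lm ω, x ω)) s * (if φ s.1 s.2 then (1 : ℝ) else 0) :=
    Finset.sum_congr rfl fun s _ => by rw [← Prod.mk.eta (p := s), h]
  rw [h1, h2] at h3
  rw [Pe_eq, Pe_eq]
  simpa using h3

/-- Encoding of finitely many values. -/
theorem exists_code (F : Finset C) : ∃ e : C → ℕ, ∀ c ∈ F, ∀ c' ∈ F, e c = e c' → c = c' := by
  classical
  obtain ⟨e, he⟩ : ∃ e : F → ℕ, Function.Injective e :=
    ⟨fun c => (F.equivFin c : ℕ), fun a b h => F.equivFin.injective (Fin.ext h)⟩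
  refine ⟨fun c => if h : c ∈ F then e ⟨c, h⟩ else 0, fun c hc c' hc' h => ?_⟩
  simp only [hc, hc', dif_pos] at h
  exact congrArg Subtype.val (he h)

/-- **(U) for ergodic labels of stable families**, raw form. -/
theorem erg_thm {p : Ω → ℝ} (hp : IsLaw p) {q : Ω' → ℝ} (hq : IsLaw q) {lm : Ω → L} {x : Ω → X}
    {lm' : Ω' → L} {x' : Ω' → X} {A : Ω → Prop} (hA : 0 < Pe p A)
    (hlaw : ∀ l y, law q (fun w => (lm' w, x' w)) (l, y) =
      law (Pool.Agent.H49.Ent.cond p A True) (fun ω => (lm ω, x ω)) (l, y))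
    {f0 : L → ℕ} {g0 : X → ℕ} {h κ s₀ : ℝ} (h0 : ∀ ω, A ω → f0 (lm ω) = g0 (x ω))
    (hm : ∀ n, Pe p (fun ω => A ω ∧ g0 (x ω) = n) ≤ Real.exp (-h))
    (hst : ∀ B : Ω → Prop, Sub B A → Real.exp (-κ) * Pe p A ≤ Pe p B →
      ¬ LabP p lm x (h + s₀) B)
    (K : Ω' → C)
    (hM : ∀ l y c, law q (fun w => (lm' w, x' w, K w)) (l, y, c) * law q lm' l =
      law q (fun w => (lm' w, x' w)) (l, y) * law q (fun w => (lm' w, K w)) (l, c))
    {ε δ : ℝ} (hε0 : 0 ≤ ε) (hε : CH q K x' - CH q K lm' ≤ ε) (hδ : 0 < δ)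
    (hG : δ ≤ Pe q (fun w => Real.exp s₀ * cp q (fun w => g0 (x' w)) K (g0 (x' w)) (K w) ≤
      cp q x' K (x' w) (K w))) :
    δ / 4 * Real.exp (-(2 * (ε + 1) / δ)) < Real.exp (-κ) := by
  classical
  obtain ⟨f, g, G, h1, h2⟩ := kl_thm hq lm' x' g0 K hM hε0 hε hδ hG
  by_contra hcon
  rw [not_lt] at hcon
  set B : Ω → Prop := fun ω => A ω ∧ (f (lm ω) = g (x ω) ∧ G (x ω)) with hB
  have hPB : Real.exp (-κ) * Pe p A ≤ Pe p B := by
    have e1 := transfer hlaw (fun l y => f l = g y ∧ G y)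
    have e2 := Pe_cond hp A (fun ω => f (lm ω) = g (x ω) ∧ G (x ω)) hA
    rw [← e2, ← e1]
    exact mul_le_mul_of_nonneg_right (hcon.trans h1) (Pe_nonneg hp A)
  refine hst B (fun ω hω => hω.1) hPB ?_
  obtain ⟨e, he⟩ := exists_code (univ.image fun ω => g (x ω))
  refine ⟨fun l => Nat.pair (f0 l) (e (f l)), fun y => Nat.pair (g0 y) (e (g y)), ?_, ?_⟩
  · rintro ω ⟨hAω, hf, -⟩
    simp only [h0 ω hAω, hf]
  · intro n
    by_cases hex : ∃ ω, B ω ∧ Nat.pair (g0 (x ω)) (e (g (x ω))) = n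
    · obtain ⟨ω0, hω0, hn⟩ := hex
      set z := g0 (x ω0) with hz
      set c := g (x ω0) with hc
      have hsub : Pe p (fun ω => B ω ∧ Nat.pair (g0 (x ω)) (e (g (x ω))) = n) ≤
          Pe p (fun ω => A ω ∧ ((G (x ω) ∧ g (x ω) = c) ∧ g0 (x ω) = z)) := by
        refine Pe_mono hp ?_
        rintro ω ⟨⟨hAω, -, hGω⟩, hnω⟩
        rw [← hn, Nat.pair_eq_pair] at hnω
        refine ⟨hAω, ⟨hGω, ?_⟩, hnω.1⟩
        exact he _ (Finset.mem_image_of_mem _ (Finset.mem_univ ω)) _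
          (Finset.mem_image_of_mem _ (Finset.mem_univ ω0)) hnω.2
      refine hsub.trans ?_
      have e1 := transfer hlaw (fun _ y => (G y ∧ g y = c) ∧ g0 y = z)
      have e2 := Pe_cond hp A (fun ω => (G (x ω) ∧ g (x ω) = c) ∧ g0 (x ω) = z) hA
      have e3 := transfer hlaw (fun _ y => g0 y = z)
      have e4 := Pe_cond hp A (fun ω => g0 (x ω) = z) hA
      have e5 : law q (fun w => g0 (x' w)) z = Pe q (fun w => g0 (x' w) = z) := by
        rw [Pe_eq]; unfold law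
        exact Finset.sum_congr rfl fun ω _ => by congr
      have h3 := h2 z c
      rw [e5, e3] at h3
      rw [← e2, ← e1]
      calc Pe q (fun w => (G (x' w) ∧ g (x' w) = c) ∧ g0 (x' w) = z) * Pe p A
          ≤ (Real.exp (-s₀) * Pe (Pool.Agent.H49.Ent.cond p A True) (fun ω => g0 (x ω) = z)) *
            Pe p A := mul_le_mul_of_nonneg_right h3 (Pe_nonneg hp A)
        _ = Real.exp (-s₀) * Pe p (fun ω => A ω ∧ g0 (x ω) = z) := by rw [← e4]; ring
        _ ≤ Real.exp (-s₀) * Real.exp (-h) :=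
            mul_le_mul_of_nonneg_left (hm z) (Real.exp_pos _).le
        _ = Real.exp (-(h + s₀)) := by rw [← Real.exp_add]; congr 1; ring
    · have : Pe p (fun ω => B ω ∧ Nat.pair (g0 (x ω)) (e (g (x ω))) = n) = 0 := by
        rw [Pe_eq]
        refine Finset.sum_eq_zero fun ω _ => ?_
        rw [if_neg fun hω => hex ⟨ω, hω⟩]
      rw [this]
      exact (Real.exp_pos _).le

/-- **(U) for ergodic labels of stable families.** -/
theorem erg_bound {κ ε δ : ℝ} (hκ : 0 < κ) (hε0 : 0 ≤ ε) (hδ : 0 < δ)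
    (h : δ / 4 * Real.exp (-(2 * (ε + 1) / δ)) < Real.exp (-κ)) :
    δ ≤ 4 * (ε + 1) / κ + 4 * Real.exp (-(κ / 2)) := by
  by_contra hcon
  rw [not_le] at hcon
  have hp1 : 0 < 4 * (ε + 1) / κ := by positivity
  have hp2 := Real.exp_pos (-(κ / 2))
  have h1 : 4 * (ε + 1) / κ < δ := by linarith
  have h2 : 2 * (ε + 1) / δ ≤ κ / 2 := by
    rw [div_lt_iff₀ hκ] at h1
    rw [div_le_iff₀ hδ]
    linarith
  have h3 : Real.exp (-(κ / 2)) ≤ δ / 4 := by linarith
  have h4 : Real.exp (-(κ / 2)) ≤ Real.exp (-(2 * (ε + 1) / δ)) := Real.exp_le_exp.2 (by linarith)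
  have h5 : Real.exp (-κ) ≤ δ / 4 * Real.exp (-(2 * (ε + 1) / δ)) := by
    calc Real.exp (-κ) = Real.exp (-(κ / 2)) * Real.exp (-(κ / 2)) := by
          rw [← Real.exp_add]; congr 1; ring
      _ ≤ _ := mul_le_mul h3 h4 hp2.le (by linarith)
  linarith

end Pool.KL
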