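import Pool.Agent.H52.KL.Match
import Pool.Agent.H35.K2S.Dich

/-!
# Kernels of small price give labels

`A` is a kernel of `lm` (it is independent of `x` given `lm`), its price is
`I(A; lm | x) = H(A | x) - H(A | lm) ≤ ε`. If `A` tells at least `s` about `x` (given the function
`zx x` of `x`) with probability `q`, then on an event of probability at least
`(q / 4) exp (-2 (ε + 1) / q)` there is a label which is a function of `x` and a function of `lm`,
with small masses `exp (-s)` given `zx x`.
-/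

set_option autoImplicit false

namespace Pool.KL

open Finset Real
open Pool.Agent.H49.Ent Pool.Agent.H32.Dense Pool.STK Pool.KA Pool.K2S

variable {Ω L X Z C S T : Type} [Fintype Ω]

open Classical in
/-- Sums over the values of a variable. -/
theorem sum_law_mul (p : Ω → ℝ) (Y : Ω → S) (F : Finset S) (hF : ∀ ω, p ω ≠ 0 → Y ω ∈ F)
    (φ : S → ℝ) : ∑ s ∈ F, law p Y s * φ s = ∑ ω, p ω * φ (Y ω) := by
  unfold law
  simp_rw [Finset.sum_mul]
  rw [Finset.sum_comm]
  refine Finset.sum_congr rfl fun ω _ => ?_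
  by_cases h0 : p ω = 0
  · simp [h0]
  · rw [Finset.sum_eq_single (Y ω)]
    · simp
    · intro s _ hs
      rw [if_neg (Ne.symm hs), zero_mul]
    · intro h
      exact absurd (hF ω h0) h

open Classical in
/-- The support of a variable. -/
noncomputable def vals (p : Ω → ℝ) (Y : Ω → S) : Finset S :=
  (univ.filter fun ω => p ω ≠ 0).image Y

theorem mem_vals {p : Ω → ℝ} {Y : Ω → S} {ω : Ω} (h : p ω ≠ 0) : Y ω ∈ vals p Y := by
  classical
  exact Finset.mem_image_of_mem Y (by simp [h])

theorem law_vals_pos {p : Ω → ℝ} (hp : IsLaw p) {Y : Ω → S} {s : S} (h : s ∈ vals p Y) :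
    0 < law p Y s := by
  classical
  obtain ⟨ω, hω, rfl⟩ := Finset.mem_image.1 h
  rw [Finset.mem_filter] at hω
  exact law_pos hp.nonneg Y (lt_of_le_of_ne (hp.nonneg ω) (Ne.symm hω.2))

/-- The conditional probability of `Y = y` given `V = v`. -/
noncomputable def cp (p : Ω → ℝ) (V : Ω → T) (Y : Ω → S) (v : T) (y : S) : ℝ :=
  law p (fun ω => (V ω, Y ω)) (v, y) / law p V v

theorem cp_nonneg {p : Ω → ℝ} (hp : IsLaw p) (V : Ω → T) (Y : Ω → S) (v : T) (y : S) :
    0 ≤ cp p V Y v y :=
  div_nonneg (law_nonneg hp.nonneg _ _) (law_nonneg hp.nonneg _ _)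

theorem cp_pos {p : Ω → ℝ} (hp : IsLaw p) (V : Ω → T) (Y : Ω → S) {ω : Ω} (h : 0 < p ω) :
    0 < cp p V Y (V ω) (Y ω) :=
  div_pos (law_pos hp.nonneg (fun ω => (V ω, Y ω)) h) (law_pos hp.nonneg V h)

theorem sum_pair (p : Ω → ℝ) (V : Ω → T) (Y : Ω → S) (v : T) :
    ∑ y ∈ vals p Y, law p (fun ω => (V ω, Y ω)) (v, y) = law p V v := by
  classical
  unfold law
  rw [Finset.sum_comm]
  refine Finset.sum_congr rfl fun ω _ => ?_
  by_cases h0 : p ω = 0
  · simp [h0]
  · by_cases hv : V ω = v
    · rw [if_pos hv, Finset.sum_eq_single (Y ω)]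
      · simp [hv]
      · intro y _ hy
        rw [if_neg]
        simp only [Prod.mk.injEq, not_and]
        intro _ h; exact hy h.symm
      · intro h
        exact absurd (mem_vals h0) h
    · rw [if_neg hv]
      refine Finset.sum_eq_zero fun y _ => ?_
      rw [if_neg]
      simp [hv]

theorem sum_cp {p : Ω → ℝ} (hp : IsLaw p) (V : Ω → T) (Y : Ω → S) {v : T} (hv : v ∈ vals p V) :
    ∑ y ∈ vals p Y, cp p V Y v y = 1 := by
  unfold cp
  rw [← Finset.sum_div, sum_pair, div_self (law_vals_pos hp hv).ne']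

/-- The mean log-ratio is the price. -/
theorem mean_rho {p : Ω → ℝ} (hp : IsLaw p) (lm : Ω → L) (x : Ω → X) (A : Ω → C) :
    ∑ ω, p ω * (Real.log (cp p lm A (lm ω) (A ω)) - Real.log (cp p x A (x ω) (A ω))) =
      CH p A x - CH p A lm := by
  have e : ∀ (T : Type) (V : Ω → T), ∑ ω, p ω * Real.log (cp p V A (V ω) (A ω)) = -CH p A V := by
    intro T V
    have h1 : H p (fun ω => (A ω, V ω)) = H p (fun ω => (V ω, A ω)) :=
      H_congr hp.nonneg (fun _ _ _ _ h => Prod.ext (congrArg Prod.snd h) (congrArg Prod.fst h))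
        (fun _ _ _ _ h => Prod.ext (congrArg Prod.snd h) (congrArg Prod.fst h))
    unfold CH
    rw [h1]
    unfold H
    rw [neg_sub_neg, neg_sub, ← Finset.sum_sub_distrib]
    refine Finset.sum_congr rfl fun ω _ => ?_
    by_cases h0 : p ω = 0
    · simp [h0]
    · have hω : 0 < p ω := lt_of_le_of_ne (hp.nonneg ω) (Ne.symm h0)
      unfold cp
      rw [Real.log_div (law_pos hp.nonneg (fun ω => (V ω, A ω)) hω).ne'
        (law_pos hp.nonneg V hω).ne']
      ring
  simp_rw [mul_sub]
  rw [Finset.sum_sub_distrib, e L lm, e X x]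
  ring

open Classical in
theorem law_pair (p : Ω → ℝ) (V : Ω → T) (Y : Ω → S) (v : T) (y : S) :
    law p (fun ω => (V ω, Y ω)) (v, y) = ∑ ω, if V ω = v ∧ Y ω = y then p ω else 0 := by
  unfold law
  refine Finset.sum_congr rfl fun ω _ => ?_
  by_cases h : V ω = v ∧ Y ω = y
  · rw [if_pos h, if_pos (Prod.ext h.1 h.2)]
  · rw [if_neg h, if_neg fun h' => h ⟨congrArg Prod.fst h', congrArg Prod.snd h'⟩]

open Classical in
/-- The mean of the conditional probability. -/
theorem sum_cp_fiber {p : Ω → ℝ} (hp : IsLaw p) (x : Ω → X) (zx : X → Z) (A : Ω → C) (z : Z)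
    (c : C) :
    ∑ ω, p ω * (if zx (x ω) = z then cp p x A (x ω) c else 0) =
      law p (fun ω => (zx (x ω), A ω)) (z, c) := by
  have h1 := sum_law_mul p x (vals p x) (fun ω h0 => mem_vals h0)
    (fun y => if zx y = z then cp p x A y c else 0)
  rw [← h1]
  have h2 : ∀ y ∈ vals p x, law p x y * (if zx y = z then cp p x A y c else 0) =
      ∑ ω, (if x ω = y then (if zx (x ω) = z ∧ A ω = c then p ω else 0) else 0) := by
    intro y hy
    split_ifs with h
    · unfold cp
      rw [mul_div_cancel₀ _ (law_vals_pos hp hy).ne', law_pair]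
      refine Finset.sum_congr rfl fun ω _ => ?_
      by_cases hx : x ω = y
      · subst hx
        simp [h]
      · simp [hx]
    · rw [mul_zero]
      symm
      refine Finset.sum_eq_zero fun ω _ => ?_
      by_cases hx : x ω = y
      · subst hx
        simp [h]
      · simp [hx]
  rw [Finset.sum_congr rfl h2, Finset.sum_comm, law_pair]
  refine Finset.sum_congr rfl fun ω _ => ?_
  by_cases h0 : p ω = 0
  · simp [h0]
  · rw [Finset.sum_eq_single (x ω)]
    · simp
    · intro y _ hy
      rw [if_neg (Ne.symm hy)]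
    · intro h
      exact absurd (mem_vals h0) h

theorem Pe_le_sum (p : Ω → ℝ) {E : Ω → Prop} {φ : Ω → ℝ} (h0 : ∀ ω, 0 ≤ φ ω)
    (h : ∀ ω, E ω → p ω ≤ φ ω) : Pe p E ≤ ∑ ω, φ ω := by
  classical
  rw [Pe_eq]
  refine Finset.sum_le_sum fun ω _ => ?_
  split_ifs with hE
  · exact h ω hE
  · exact h0 ω

open Classical in
/-- **LEMMA KL.** -/
theorem kl_thm {p : Ω → ℝ} (hp : IsLaw p) (lm : Ω → L) (x : Ω → X) (zx : X → Z) (A : Ω → C)
    (hM : ∀ l y c, law p (fun ω => (lm ω, x ω, A ω)) (l, y, c) * law p lm l =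
      law p (fun ω => (lm ω, x ω)) (l, y) * law p (fun ω => (lm ω, A ω)) (l, c))
    {ε s q : ℝ} (hε0 : 0 ≤ ε) (hε : CH p A x - CH p A lm ≤ ε) (hq : 0 < q)
    (hG : q ≤ Pe p (fun ω => Real.exp s * cp p (fun ω => zx (x ω)) A (zx (x ω)) (A ω) ≤
      cp p x A (x ω) (A ω))) :
    ∃ (f : L → C) (g : X → C) (G : X → Prop),
      q / 4 * Real.exp (-(2 * (ε + 1) / q)) ≤ Pe p (fun ω => f (lm ω) = g (x ω) ∧ G (x ω)) ∧
      ∀ z c, Pe p (fun ω => (G (x ω) ∧ g (x ω) = c) ∧ zx (x ω) = z) ≤
        Real.exp (-s) * law p (fun ω => zx (x ω)) z := by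
  set zz : Ω → Z := fun ω => zx (x ω) with hzz
  set a : L → C → ℝ := fun l c => cp p lm A l c with ha
  set b : X → C → ℝ := fun y c => cp p x A y c with hb
  set G : X → C → Prop := fun y c => 0 < b y c ∧ Real.exp s * cp p zz A (zx y) c ≤ b y c with hGd
  set w : L → X → ℝ := fun l y => law p (fun ω => (lm ω, x ω)) (l, y) with hw
  have hw0 : ∀ l y, 0 ≤ w l y := fun l y => law_nonneg hp.nonneg _ _
  obtain ⟨ω0, hω0⟩ : ∃ ω, p ω ≠ 0 := by
    by_contra h
    push Not at h
    have := hp.sum_one
    simp [h] at this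
  obtain ⟨f, g, hfg⟩ := match_det (vals p A) w hw0 a b
    (fun l c => cp_nonneg hp _ _ _ _) (fun y c => cp_nonneg hp _ _ _ _) G (A ω0) _
    (vals p lm) (vals p x) le_rfl (fun l hl => sum_cp hp lm A hl) (fun y hy => sum_cp hp x A hy)
  -- the right side is the probability of the event
  have hR : ∑ l ∈ vals p lm, ∑ y ∈ vals p x, (if f l = g y ∧ G y (g y) then w l y else 0) =
      Pe p (fun ω => f (lm ω) = g (x ω) ∧ G (x ω) (g (x ω))) := by
    rw [Pe_eq, ← Finset.sum_product']
    have h := sum_law_mul p (fun ω => (lm ω, x ω)) (vals p lm ×ˢ vals p x)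
      (fun ω h0 => Finset.mem_product.2 ⟨mem_vals h0, mem_vals h0⟩)
      (fun t => if f t.1 = g t.2 ∧ G t.2 (g t.2) then (1 : ℝ) else 0)
    refine Eq.trans (Finset.sum_congr rfl fun t _ => ?_) (h.trans (Finset.sum_congr rfl fun ω _ => ?_))
    · split_ifs <;> simp [hw]
    · simp only
      split_ifs <;> simp
  have htri : ∀ (ψ : L → X → C → ℝ), ∑ ω, p ω * ψ (lm ω) (x ω) (A ω) =
      ∑ l ∈ vals p lm, ∑ y ∈ vals p x, w l y * ∑ c ∈ vals p A, a l c * ψ l y c := by
    intro ψ
    have h := sum_law_mul p (fun ω => (lm ω, x ω, A ω)) (vals p lm ×ˢ (vals p x ×ˢ vals p A))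
      (fun ω h0 => Finset.mem_product.2 ⟨mem_vals h0, Finset.mem_product.2 ⟨mem_vals h0, mem_vals h0⟩⟩)
      (fun t => ψ t.1 t.2.1 t.2.2)
    rw [← h, Finset.sum_product]
    refine Finset.sum_congr rfl fun l hl => ?_
    rw [Finset.sum_product]
    refine Finset.sum_congr rfl fun y hy => ?_
    rw [Finset.mul_sum]
    refine Finset.sum_congr rfl fun c hc => ?_
    simp only
    have hlp := law_vals_pos hp hl
    have e3 : law p (fun ω => (lm ω, x ω, A ω)) (l, y, c) = w l y * a l c := by
      rw [ha, hw]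
      simp only
      unfold cp
      rw [mul_div_assoc', eq_div_iff hlp.ne']
      exact hM l y c
    rw [e3]
    ring
  -- the left side
  have hLs : ∑ ω, p ω * (if G (x ω) (A ω) then min 1 (b (x ω) (A ω) / a (lm ω) (A ω)) else 0) =
      ∑ l ∈ vals p lm, ∑ y ∈ vals p x, w l y *
        ∑ c ∈ vals p A, (if G y c then min (a l c) (b y c) else 0) := by
    rw [htri fun l y c => if G y c then min 1 (b y c / a l c) else 0]
    refine Finset.sum_congr rfl fun l hl => Finset.sum_congr rfl fun y hy => ?_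
    congr 1
    refine Finset.sum_congr rfl fun c hc => ?_
    by_cases hGc : G y c
    · rw [if_pos hGc, if_pos hGc]
      rcases (cp_nonneg hp lm A l c).eq_or_lt with h0 | h0
      · have h00 : a l c = 0 := h0.symm
        rw [h00, min_eq_left (cp_nonneg hp x A y c)]
        ring
      · have h0' : 0 < a l c := h0
        rw [mul_comm, min_mul_of_nonneg _ _ h0'.le, one_mul, div_mul_cancel₀ _ h0'.ne']
    · rw [if_neg hGc, if_neg hGc]; ring
  -- the log-ratio
  set ρ : Ω → ℝ := fun ω => Real.log (a (lm ω) (A ω)) - Real.log (b (x ω) (A ω)) with hρ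
  have hρm : ∑ ω, p ω * ρ ω ≤ ε := by
    have := mean_rho hp lm x A
    rw [hρ]
    simp only [ha, hb]
    linarith
  have hexp : ∀ ω, 0 < p ω → Real.exp (-ρ ω) = b (x ω) (A ω) / a (lm ω) (A ω) := by
    intro ω hω
    have h1 : 0 < a (lm ω) (A ω) := cp_pos hp lm A hω
    have h2 : 0 < b (x ω) (A ω) := cp_pos hp x A hω
    rw [hρ]
    simp only
    rw [neg_sub, Real.exp_sub, Real.exp_log h2, Real.exp_log h1]
  have hpos : ∀ ω, 0 ≤ p ω := hp.nonneg
  have hsumw : ∑ l ∈ vals p lm, ∑ y ∈ vals p x, w l y = 1 := by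
    have h := sum_law_mul p (fun ω => (lm ω, x ω)) (vals p lm ×ˢ vals p x)
      (fun ω h0 => Finset.mem_product.2 ⟨mem_vals h0, mem_vals h0⟩) (fun _ => (1 : ℝ))
    simp only [mul_one] at h
    rw [hp.sum_one, Finset.sum_product] at h
    exact h
  have hexpm : ∑ ω, p ω * Real.exp (-ρ ω) ≤ 1 := by
    have e1 : ∑ ω, p ω * Real.exp (-ρ ω) = ∑ ω, p ω * (b (x ω) (A ω) / a (lm ω) (A ω)) := by
      refine Finset.sum_congr rfl fun ω _ => ?_
      by_cases h0 : p ω = 0
      · simp [h0]
      · rw [hexp ω (lt_of_le_of_ne (hpos ω) (Ne.symm h0))]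
    rw [e1, htri fun l y c => b y c / a l c, ← hsumw]
    refine Finset.sum_le_sum fun l hl => Finset.sum_le_sum fun y hy => ?_
    have h2 : ∑ c ∈ vals p A, a l c * (b y c / a l c) ≤ 1 := by
      rw [← sum_cp hp x A hy]
      refine Finset.sum_le_sum fun c _ => ?_
      rcases (cp_nonneg hp lm A l c).eq_or_lt with h0 | h0
      · have h00 : a l c = 0 := h0.symm
        rw [h00, zero_mul]
        exact cp_nonneg hp x A y c
      · have h0' : a l c ≠ 0 := ne_of_gt h0
        rw [mul_div_cancel₀ _ h0']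
    calc w l y * ∑ c ∈ vals p A, a l c * (b y c / a l c) ≤ w l y * 1 :=
          mul_le_mul_of_nonneg_left h2 (hw0 l y)
      _ = w l y := mul_one _
  have hplus : ∑ ω, p ω * max (ρ ω) 0 ≤ ε + 1 := by
    have h : ∀ ω, p ω * max (ρ ω) 0 ≤ p ω * ρ ω + p ω * Real.exp (-ρ ω) := by
      intro ω
      rw [← mul_add]
      refine mul_le_mul_of_nonneg_left ?_ (hpos ω)
      have h1 := Real.add_one_le_exp (-ρ ω)
      have h2 := Real.exp_pos (-ρ ω)
      refine max_le ?_ ?_ <;> linarith
    calc ∑ ω, p ω * max (ρ ω) 0 ≤ ∑ ω, (p ω * ρ ω + p ω * Real.exp (-ρ ω)) :=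
          Finset.sum_le_sum fun ω _ => h ω
      _ ≤ ε + 1 := by rw [Finset.sum_add_distrib]; linarith
  set R : ℝ := 2 * (ε + 1) / q with hRd
  have hR0 : 0 < R := by positivity
  -- the event G has mass at least q
  have hGq : q ≤ ∑ ω, if G (x ω) (A ω) then p ω else 0 := by
    rw [Pe_eq] at hG
    refine hG.trans (Finset.sum_le_sum fun ω _ => ?_)
    by_cases h0 : p ω = 0
    · simp [h0]
    · have hω := lt_of_le_of_ne (hpos ω) (Ne.symm h0)
      by_cases h1 : Real.exp s * cp p zz A (zx (x ω)) (A ω) ≤ cp p x A (x ω) (A ω)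
      · rw [if_pos h1, if_pos (show G (x ω) (A ω) from ⟨cp_pos hp x A hω, h1⟩)]
      · rw [if_neg h1]
        split_ifs
        · exact hpos ω
        · exact le_rfl
  have hbig : ∑ ω, (if R < ρ ω then p ω else 0) ≤ q / 2 := by
    have h : R * ∑ ω, (if R < ρ ω then p ω else 0) ≤ ε + 1 := by
      refine le_trans ?_ hplus
      rw [Finset.mul_sum]
      refine Finset.sum_le_sum fun ω _ => ?_
      split_ifs with h1
      · rw [mul_comm]
        exact mul_le_mul_of_nonneg_left (h1.le.trans (le_max_left _ _)) (hpos ω)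
      · rw [mul_zero]
        exact mul_nonneg (hpos ω) (le_max_right _ _)
    have h2 : R * (q / 2) = ε + 1 := by
      rw [hRd]; field_simp
    exact le_of_mul_le_mul_left (h.trans h2.ge) hR0
  have hS : q / 2 * Real.exp (-R) ≤
      ∑ ω, p ω * (if G (x ω) (A ω) then min 1 (b (x ω) (A ω) / a (lm ω) (A ω)) else 0) := by
    have h : ∀ ω, ((if G (x ω) (A ω) then p ω else 0) - (if R < ρ ω then p ω else 0)) *
        Real.exp (-R) ≤
        p ω * (if G (x ω) (A ω) then min 1 (b (x ω) (A ω) / a (lm ω) (A ω)) else 0) := by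
      intro ω
      by_cases h0 : p ω = 0
      · simp [h0]
      have hω := lt_of_le_of_ne (hpos ω) (Ne.symm h0)
      by_cases hg : G (x ω) (A ω)
      · rw [if_pos hg, if_pos hg, ← hexp ω hω]
        by_cases hr : R < ρ ω
        · rw [if_pos hr, sub_self, zero_mul]
          exact mul_nonneg hω.le (le_min zero_le_one (Real.exp_pos _).le)
        · rw [if_neg hr, sub_zero]
          refine mul_le_mul_of_nonneg_left (le_min ?_ ?_) hω.le
          · rw [← Real.exp_zero]
            exact Real.exp_le_exp.2 (by linarith)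
          · exact Real.exp_le_exp.2 (by linarith [not_lt.1 hr])
      · rw [if_neg hg, if_neg hg, mul_zero]
        have := Real.exp_pos (-R)
        split_ifs
        · nlinarith
        · simp
    calc q / 2 * Real.exp (-R) ≤ ((∑ ω, if G (x ω) (A ω) then p ω else 0) -
          ∑ ω, (if R < ρ ω then p ω else 0)) * Real.exp (-R) :=
          mul_le_mul_of_nonneg_right (by linarith) (Real.exp_pos _).le
      _ = ∑ ω, ((if G (x ω) (A ω) then p ω else 0) - (if R < ρ ω then p ω else 0)) *
          Real.exp (-R) := by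
          rw [← Finset.sum_sub_distrib, Finset.sum_mul]
      _ ≤ _ := Finset.sum_le_sum fun ω _ => h ω
  refine ⟨f, g, fun y => G y (g y), ?_, ?_⟩
  · rw [← hR]
    refine le_trans ?_ (hfg.trans (le_of_eq ?_))
    · refine le_trans (b := 1 / 2 * ∑ ω, p ω * (if G (x ω) (A ω) then
        min 1 (b (x ω) (A ω) / a (lm ω) (A ω)) else 0)) (by linarith) (le_of_eq ?_)
      rw [hLs]
      exact congrArg _ (Finset.sum_congr rfl fun l _ => Finset.sum_congr rfl fun y _ =>
        congrArg _ (Finset.sum_congr rfl fun c _ => by congr))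
    · exact Finset.sum_congr rfl fun l _ => Finset.sum_congr rfl fun y _ => by congr
  · intro z c
    set κ : ℝ := cp p zz A z c with hκ
    have hκ0 : 0 ≤ κ := cp_nonneg hp _ _ _ _
    rcases hκ0.eq_or_lt with h0 | h0
    · refine (Pe_le_sum p (φ := fun _ => 0) (fun _ => le_rfl) fun ω h => ?_).trans ?_
      · by_contra hne
        obtain ⟨⟨hg, hgc⟩, hz⟩ := h
        rw [hgc] at hg
        have hbpos : 0 < b (x ω) c := hg.1
        have hnum : 0 < law p (fun ω => (x ω, A ω)) (x ω, c) := by
          by_contra hle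
          have h00 : law p (fun ω => (x ω, A ω)) (x ω, c) = 0 :=
            le_antisymm (not_lt.1 hle) (law_nonneg hpos _ _)
          have : b (x ω) c = 0 := by
            rw [hb]; simp only; unfold cp; rw [h00, zero_div]
          linarith
        obtain ⟨ω', h1, h2⟩ : ∃ ω', 0 < p ω' ∧ (x ω', A ω') = (x ω, c) := by
          by_contra hno
          push Not at hno
          apply hnum.ne'
          unfold law
          refine Finset.sum_eq_zero fun ω' _ => ?_
          split_ifs with h3
          · by_contra h4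
            exact hno ω' (lt_of_le_of_ne (hpos ω') (Ne.symm h4)) h3
          · rfl
        rw [Prod.mk.injEq] at h2
        have h5 : 0 < cp p zz A (zz ω') (A ω') := cp_pos hp zz A h1
        have h6 : zz ω' = z := by rw [hzz]; simp only; rw [h2.1]; exact hz
        rw [h6, h2.2] at h5
        rw [← hκ] at h5
        linarith
      · rw [Finset.sum_const_zero]
        exact mul_nonneg (Real.exp_pos _).le (law_nonneg hpos _ _)
    · have hsum := sum_cp_fiber hp x zx A z c
      have hlz : 0 < law p zz z := by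
        by_contra hle
        have h00 : law p zz z = 0 := le_antisymm (not_lt.1 hle) (law_nonneg hpos _ _)
        have : κ = 0 := by rw [hκ]; unfold cp; rw [h00, div_zero]
        linarith
      have hlk : law p (fun ω => (zx (x ω), A ω)) (z, c) = κ * law p zz z := by
        rw [hκ]; unfold cp
        rw [div_mul_cancel₀ _ hlz.ne']
      have hex := Real.exp_pos s
      refine (Pe_le_sum p (φ := fun ω => (Real.exp s * κ)⁻¹ *
        (p ω * (if zx (x ω) = z then cp p x A (x ω) c else 0))) (fun ω => ?_)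
        fun ω h => ?_).trans (le_of_eq ?_)
      · refine mul_nonneg (by positivity) (mul_nonneg (hpos ω) ?_)
        split_ifs
        · exact cp_nonneg hp _ _ _ _
        · exact le_rfl
      · obtain ⟨⟨hg, hgc⟩, hz⟩ := h
        rw [hgc] at hg
        simp only [hz, if_true]
        have h1 : Real.exp s * κ ≤ cp p x A (x ω) c := by
          have := hg.2
          rw [hz] at this
          exact this
        have h2 : 0 < Real.exp s * κ := by positivity
        calc p ω = (Real.exp s * κ)⁻¹ * (p ω * (Real.exp s * κ)) := by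
              field_simp
          _ ≤ _ := mul_le_mul_of_nonneg_left (mul_le_mul_of_nonneg_left h1 (hpos ω)) (by positivity)
      · calc ∑ ω, (Real.exp s * κ)⁻¹ * (p ω * (if zx (x ω) = z then cp p x A (x ω) c else 0))
            = (Real.exp s * κ)⁻¹ * (κ * law p zz z) := by rw [← Finset.mul_sum, hsum, hlk]
          _ = Real.exp (-s) * law p zz z := by
              rw [Real.exp_neg]; field_simp

end Pool.KL
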