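import Mathlib

/-!
# Correlated sampling, deterministic form

Two families of probability vectors `a l`, `b x` on a finite set and weights `w l x`. There are
functions `f`, `g` such that the weight of the pairs with `f l = g x` (a value allowed by `G`) is at
least half of the mean overlap `∑ w l x ∑ min (a l c) (b x c)`.
-/

set_option autoImplicit false

namespace Pool.KL

open Finset MeasureTheory

theorem int_step {t : ℝ} (h0 : 0 ≤ t) (h1 : t ≤ 1) :
    IntegrableOn (fun u : ℝ => if u ≤ t then (1 : ℝ) else 0) (Set.Ioc 0 1) ∧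
      ∫ u in Set.Ioc (0 : ℝ) 1, (if u ≤ t then (1 : ℝ) else 0) = t := by
  have hf : (fun u : ℝ => if u ≤ t then (1 : ℝ) else 0) = Set.indicator (Set.Iic t) fun _ => 1 := by
    funext u
    simp [Set.indicator_apply]
  have hfin : volume (Set.Ioc (0 : ℝ) 1) ≠ ⊤ := by simp
  constructor
  · rw [hf]
    exact (integrableOn_const hfin).indicator measurableSet_Iic
  · rw [hf, setIntegral_indicator measurableSet_Iic]
    have : Set.Ioc (0 : ℝ) 1 ∩ Set.Iic t = Set.Ioc 0 t := by
      ext u
      simp only [Set.mem_inter_iff, Set.mem_Ioc, Set.mem_Iic]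
      constructor
      · rintro ⟨⟨h2, -⟩, h3⟩; exact ⟨h2, h3⟩
      · rintro ⟨h2, h3⟩; exact ⟨⟨h2, h3.trans h1⟩, h3⟩
    rw [this]
    simp [h0]

variable {L X C : Type*}

open Classical in
/-- One round: a value `c` and a level `u`. -/
theorem round (L0 : Finset L) (X0 : Finset X) (D : Finset C) (w : L → X → ℝ)
    (hw : ∀ l x, 0 ≤ w l x) (a : L → C → ℝ) (b : X → C → ℝ) (ha0 : ∀ l c, 0 ≤ a l c)
    (ha : ∀ l ∈ L0, ∑ c ∈ D, a l c = 1) (hb0 : ∀ x c, 0 ≤ b x c)
    (hb : ∀ x ∈ X0, ∑ c ∈ D, b x c = 1) (G : X → C → Prop) (hL : L0.Nonempty) :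
    ∃ c ∈ D, ∃ u : ℝ, ((∃ l ∈ L0, u ≤ a l c) ∨ ∃ x ∈ X0, u ≤ b x c) ∧
      (1 / 2) * ∑ l ∈ L0, ∑ x ∈ X0, w l x *
          (∑ c' ∈ D, if G x c' then min (a l c') (b x c') else 0) *
          (if u ≤ a l c ∨ u ≤ b x c then 1 else 0) ≤
        ∑ l ∈ L0, ∑ x ∈ X0, w l x * (if G x c ∧ u ≤ a l c ∧ u ≤ b x c then 1 else 0) := by
  set M : L → X → ℝ := fun l x => ∑ c' ∈ D, if G x c' then min (a l c') (b x c') else 0 with hM
  have hM0 : ∀ l x, 0 ≤ M l x := fun l x => Finset.sum_nonneg fun c _ => by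
    split_ifs
    · exact le_min (ha0 l c) (hb0 x c)
    · exact le_rfl
  have ha1 : ∀ l ∈ L0, ∀ c ∈ D, a l c ≤ 1 := fun l hl c hc => by
    rw [← ha l hl]; exact Finset.single_le_sum (fun c' _ => ha0 l c') hc
  have hb1 : ∀ x ∈ X0, ∀ c ∈ D, b x c ≤ 1 := fun x hx c hc => by
    rw [← hb x hx]; exact Finset.single_le_sum (fun c' _ => hb0 x c') hc
  by_contra hcon
  push Not at hcon
  set h : C → ℝ → ℝ := fun c u => ∑ l ∈ L0, ∑ x ∈ X0,
    (w l x * (if G x c then (if u ≤ min (a l c) (b x c) then 1 else 0) else 0) -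
      (1 / 2) * (w l x * M l x) * (if u ≤ max (a l c) (b x c) then 1 else 0)) with hh
  have hneg : ∀ c ∈ D, ∀ u : ℝ, ((∃ l ∈ L0, u ≤ a l c) ∨ ∃ x ∈ X0, u ≤ b x c) → h c u < 0 := by
    intro c hc u hu
    have := hcon c hc u hu
    have e : h c u = (∑ l ∈ L0, ∑ x ∈ X0, w l x *
        (if G x c ∧ u ≤ a l c ∧ u ≤ b x c then 1 else 0)) -
        (1 / 2) * ∑ l ∈ L0, ∑ x ∈ X0, w l x * M l x * (if u ≤ a l c ∨ u ≤ b x c then 1 else 0) := by
      rw [hh]
      simp only
      rw [Finset.mul_sum, ← Finset.sum_sub_distrib]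
      refine Finset.sum_congr rfl fun l _ => ?_
      rw [Finset.mul_sum, ← Finset.sum_sub_distrib]
      refine Finset.sum_congr rfl fun x _ => ?_
      congr 1
      · congr 1
        by_cases hG : G x c <;> simp [hG]
      · simp only [le_max_iff]
        ring
    rw [e]
    linarith
  have hzero : ∀ c u, ¬ ((∃ l ∈ L0, u ≤ a l c) ∨ ∃ x ∈ X0, u ≤ b x c) → h c u = 0 := by
    intro c u hu
    push Not at hu
    refine Finset.sum_eq_zero fun l hl => Finset.sum_eq_zero fun x hx => ?_
    have h1 := hu.1 l hl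
    have h2 := hu.2 x hx
    rw [if_neg (show ¬ u ≤ max (a l c) (b x c) by
      rw [le_max_iff]; push Not; exact ⟨h1, h2⟩),
      if_neg (show ¬ u ≤ min (a l c) (b x c) by
      rw [le_min_iff]; push Not; intro h3; exact h2)]
    simp
  have hle : ∀ c ∈ D, ∀ u : ℝ, h c u ≤ 0 := fun c hc u => by
    by_cases hu : (∃ l ∈ L0, u ≤ a l c) ∨ ∃ x ∈ X0, u ≤ b x c
    · exact (hneg c hc u hu).le
    · exact (hzero c u hu).le
  have hi : ∀ c ∈ D, IntegrableOn (h c) (Set.Ioc 0 1) ∧
      ∫ u in Set.Ioc (0 : ℝ) 1, h c u = ∑ l ∈ L0, ∑ x ∈ X0,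
        (w l x * (if G x c then min (a l c) (b x c) else 0) -
          (1 / 2) * (w l x * M l x) * max (a l c) (b x c)) := by
    intro c hc
    have key : ∀ l ∈ L0, ∀ x ∈ X0, IntegrableOn (fun u : ℝ =>
        (w l x * (if G x c then (if u ≤ min (a l c) (b x c) then (1 : ℝ) else 0) else 0) -
      (1 / 2) * (w l x * M l x) * (if u ≤ max (a l c) (b x c) then 1 else 0))) (Set.Ioc 0 1) ∧
        ∫ u in Set.Ioc (0 : ℝ) 1,
        (w l x * (if G x c then (if u ≤ min (a l c) (b x c) then (1 : ℝ) else 0) else 0) -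
      (1 / 2) * (w l x * M l x) * (if u ≤ max (a l c) (b x c) then 1 else 0)) =
        (w l x * (if G x c then min (a l c) (b x c) else 0) -
          (1 / 2) * (w l x * M l x) * max (a l c) (b x c)) := by
      intro l hl x hx
      have hmin := int_step (t := min (a l c) (b x c)) (le_min (ha0 l c) (hb0 x c))
        ((min_le_left _ _).trans (ha1 l hl c hc))
      have hmax := int_step (t := max (a l c) (b x c)) ((ha0 l c).trans (le_max_left _ _))
        (max_le (ha1 l hl c hc) (hb1 x hx c hc))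
      have h2 : IntegrableOn (fun u : ℝ => (1 / 2) * (w l x * M l x) *
          (if u ≤ max (a l c) (b x c) then (1 : ℝ) else 0)) (Set.Ioc 0 1) := hmax.1.const_mul _
      by_cases hG : G x c
      · simp only [if_pos hG]
        have h1 : IntegrableOn (fun u : ℝ => w l x *
          (if u ≤ min (a l c) (b x c) then (1 : ℝ) else 0)) (Set.Ioc 0 1) := hmin.1.const_mul _
        refine ⟨h1.sub h2, ?_⟩
        rw [integral_sub h1 h2, integral_const_mul, integral_const_mul, hmin.2, hmax.2]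
      · simp only [if_neg hG, mul_zero, zero_sub]
        refine ⟨h2.neg, ?_⟩
        rw [integral_neg, integral_const_mul, hmax.2]
    constructor
    · rw [hh]
      exact integrable_finsetSum _ fun l hl => integrable_finsetSum _ fun x hx => (key l hl x hx).1
    · rw [hh]
      simp only
      rw [integral_finsetSum _ fun l hl => integrable_finsetSum _ fun x hx => (key l hl x hx).1]
      refine Finset.sum_congr rfl fun l hl => ?_
      rw [integral_finsetSum _ fun x hx => (key l hl x hx).1]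
      exact Finset.sum_congr rfl fun x hx => (key l hl x hx).2
  have hsum : 0 ≤ ∑ c ∈ D, ∫ u in Set.Ioc (0 : ℝ) 1, h c u := by
    rw [Finset.sum_congr rfl fun c hc => (hi c hc).2, Finset.sum_comm]
    refine Finset.sum_nonneg fun l hl => ?_
    rw [Finset.sum_comm]
    refine Finset.sum_nonneg fun x hx => ?_
    rw [Finset.sum_sub_distrib, ← Finset.mul_sum, ← Finset.mul_sum]
    have h2 : ∑ c ∈ D, max (a l c) (b x c) ≤ 2 := by
      calc ∑ c ∈ D, max (a l c) (b x c) ≤ ∑ c ∈ D, (a l c + b x c) :=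
            Finset.sum_le_sum fun c _ =>
              max_le (by linarith [hb0 x c]) (by linarith [ha0 l c])
        _ = 2 := by rw [Finset.sum_add_distrib, ha l hl, hb x hx]; norm_num
    have h3 : 0 ≤ w l x * M l x := mul_nonneg (hw l x) (hM0 l x)
    have h4 : (1 / 2) * (w l x * M l x) * ∑ c ∈ D, max (a l c) (b x c) ≤ w l x * M l x := by
      nlinarith
    have h5 : w l x * ∑ c ∈ D, (if G x c then min (a l c) (b x c) else 0) = w l x * M l x := rfl
    rw [h5]
    linarith
  have hint_le : ∀ c ∈ D, ∫ u in Set.Ioc (0 : ℝ) 1, h c u ≤ 0 := fun c hc =>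
    integral_nonpos fun u => hle c hc u
  obtain ⟨l0, hl0⟩ := hL
  obtain ⟨c0, hc0, hpos⟩ : ∃ c ∈ D, 0 < a l0 c := by
    by_contra hno
    push Not at hno
    have : ∑ c ∈ D, a l0 c = 0 := Finset.sum_eq_zero fun c hc => le_antisymm (hno c hc) (ha0 l0 c)
    rw [ha l0 hl0] at this
    norm_num at this
  have hint0 : ∫ u in Set.Ioc (0 : ℝ) 1, h c0 u = 0 := by
    refine le_antisymm (hint_le c0 hc0) ?_
    have h6 : ∑ c ∈ D, ∫ u in Set.Ioc (0 : ℝ) 1, h c u ≤ ∫ u in Set.Ioc (0 : ℝ) 1, h c0 u := by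
      rw [← Finset.add_sum_erase D _ hc0]
      have : ∑ c ∈ D.erase c0, ∫ u in Set.Ioc (0 : ℝ) 1, h c u ≤ 0 :=
        Finset.sum_nonpos fun c hc => hint_le c (Finset.mem_of_mem_erase hc)
      linarith
    linarith
  have hae : (fun u => -h c0 u) =ᵐ[volume.restrict (Set.Ioc (0 : ℝ) 1)] 0 := by
    refine (integral_eq_zero_iff_of_nonneg_ae ?_ (hi c0 hc0).1.neg).1 ?_
    · exact Filter.Eventually.of_forall fun u => by simpa using hle c0 hc0 u
    · have e := integral_neg (μ := volume.restrict (Set.Ioc (0 : ℝ) 1)) (h c0)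
      rw [hint0, neg_zero] at e
      exact e
  have hvol : volume (Set.Ioc (0 : ℝ) (a l0 c0)) = 0 := by
    rw [Filter.EventuallyEq, ae_iff, Measure.restrict_apply₀'
      (measurableSet_Ioc.nullMeasurableSet)] at hae
    refine measure_mono_null ?_ hae
    intro u hu
    refine ⟨?_, hu.1, hu.2.trans (ha1 l0 hl0 c0 hc0)⟩
    have := hneg c0 hc0 u (Or.inl ⟨l0, hl0, hu.2⟩)
    simp only [Pi.zero_apply, Set.mem_ofPred_eq, neg_eq_zero]
    exact this.ne
  rw [Real.volume_Ioc, sub_zero, ENNReal.ofReal_eq_zero] at hvol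
  exact absurd hvol (not_le.2 hpos)

open Classical in
/-- **Correlated sampling.** -/
theorem match_det (D : Finset C) (w : L → X → ℝ)
    (hw : ∀ l x, 0 ≤ w l x) (a : L → C → ℝ) (b : X → C → ℝ) (ha0 : ∀ l c, 0 ≤ a l c)
    (hb0 : ∀ x c, 0 ≤ b x c) (G : X → C → Prop) (c0 : C) :
    ∀ n : ℕ, ∀ (L0 : Finset L) (X0 : Finset X), L0.card + X0.card ≤ n →
      (∀ l ∈ L0, ∑ c ∈ D, a l c = 1) → (∀ x ∈ X0, ∑ c ∈ D, b x c = 1) →
      ∃ f : L → C, ∃ g : X → C,
        (1 / 2) * ∑ l ∈ L0, ∑ x ∈ X0, w l x *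
            (∑ c ∈ D, if G x c then min (a l c) (b x c) else 0) ≤
          ∑ l ∈ L0, ∑ x ∈ X0, if f l = g x ∧ G x (g x) then w l x else 0 := by
  intro n
  induction n with
  | zero =>
    intro L0 X0 hn _ _
    have h1 : L0 = ∅ := Finset.card_eq_zero.1 (by omega)
    exact ⟨fun _ => c0, fun _ => c0, by simp [h1]⟩
  | succ n ih =>
    intro L0 X0 hn ha hb
    by_cases hL : L0.Nonempty
    swap
    · rw [Finset.not_nonempty_iff_eq_empty] at hL
      exact ⟨fun _ => c0, fun _ => c0, by simp [hL]⟩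
    obtain ⟨c, hc, u, hu, hround⟩ := round L0 X0 D w hw a b ha0 ha hb0 hb G hL
    set L1 : Finset L := L0.filter fun l => ¬ u ≤ a l c with hL1
    set X1 : Finset X := X0.filter fun x => ¬ u ≤ b x c with hX1
    have hcard : L1.card + X1.card ≤ n := by
      rcases hu with ⟨l, hl, hlu⟩ | ⟨x, hx, hxu⟩
      · have h1 : L1.card < L0.card := Finset.card_lt_card (by
          refine Finset.filter_ssubset.2 ⟨l, hl, ?_⟩
          simpa using hlu)
        have h2 : X1.card ≤ X0.card := Finset.card_filter_le _ _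
        omega
      · have h1 : X1.card < X0.card := Finset.card_lt_card (by
          refine Finset.filter_ssubset.2 ⟨x, hx, ?_⟩
          simpa using hxu)
        have h2 : L1.card ≤ L0.card := Finset.card_filter_le _ _
        omega
    obtain ⟨f, g, hfg⟩ := ih L1 X1 hcard (fun l hl => ha l (Finset.mem_of_mem_filter l hl))
      (fun x hx => hb x (Finset.mem_of_mem_filter x hx))
    set M : L → X → ℝ := fun l x => ∑ c' ∈ D, if G x c' then min (a l c') (b x c') else 0 with hM
    refine ⟨fun l => if u ≤ a l c then c else f l, fun x => if u ≤ b x c then c else g x, ?_⟩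
    have e1 : ∑ l ∈ L0, ∑ x ∈ X0, w l x * M l x =
        (∑ l ∈ L0, ∑ x ∈ X0, w l x * M l x * (if u ≤ a l c ∨ u ≤ b x c then 1 else 0)) +
          ∑ l ∈ L1, ∑ x ∈ X1, w l x * M l x := by
      rw [hL1, Finset.sum_filter, ← Finset.sum_add_distrib]
      refine Finset.sum_congr rfl fun l _ => ?_
      by_cases hl : u ≤ a l c
      · simp [hl]
      · rw [if_pos hl, hX1, Finset.sum_filter, ← Finset.sum_add_distrib]
        refine Finset.sum_congr rfl fun x _ => ?_
        by_cases hx : u ≤ b x c <;> simp [hl, hx]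
    have e2 : (∑ l ∈ L0, ∑ x ∈ X0, w l x * (if G x c ∧ u ≤ a l c ∧ u ≤ b x c then 1 else 0)) +
        (∑ l ∈ L1, ∑ x ∈ X1, if f l = g x ∧ G x (g x) then w l x else 0) ≤
        ∑ l ∈ L0, ∑ x ∈ X0, if (if u ≤ a l c then c else f l) = (if u ≤ b x c then c else g x) ∧
          G x (if u ≤ b x c then c else g x) then w l x else 0 := by
      rw [hL1, Finset.sum_filter, ← Finset.sum_add_distrib]
      refine Finset.sum_le_sum fun l _ => ?_
      by_cases hl : u ≤ a l c
      · simp only [hl, not_true_eq_false, if_false, add_zero, true_and, if_true]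
        refine Finset.sum_le_sum fun x _ => ?_
        by_cases hx : u ≤ b x c
        · by_cases hG : G x c <;> simp [hx, hG]
        · simp only [hx, and_false, if_false, mul_zero]
          split_ifs
          · exact hw l x
          · exact le_rfl
      · rw [if_pos hl, hX1, Finset.sum_filter, ← Finset.sum_add_distrib]
        refine Finset.sum_le_sum fun x _ => ?_
        by_cases hx : u ≤ b x c
        · simp only [hl, hx, false_and, and_false, if_false, mul_zero, not_true_eq_false, zero_add,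
            if_true]
          split_ifs
          · exact hw l x
          · exact le_rfl
        · simp [hl, hx]
    have e3 : (1 / 2 : ℝ) * ∑ l ∈ L0, ∑ x ∈ X0, w l x * M l x =
        (1 / 2) * (∑ l ∈ L0, ∑ x ∈ X0, w l x * M l x * (if u ≤ a l c ∨ u ≤ b x c then 1 else 0)) +
          (1 / 2) * ∑ l ∈ L1, ∑ x ∈ X1, w l x * M l x := by
      rw [e1]; ring
    rw [e3]
    exact (add_le_add hround hfg).trans e2

end Pool.KL
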